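import Mathlib
import Pool.Agent.V11174.HomExt

/-! # MP_510a26_co: every nonnegative integer is in `H`. -/

namespace Pool.Agent.Results.MP_510a26_co.AllHomogeneous

open Pool.Agent.V11174.HomExt

def L8 : Fin 8 → Fin 8 → Fin 8 :=
  ![![0, 1, 2, 3, 4, 5, 6, 7],
    ![1, 2, 3, 0, 5, 6, 7, 4],
    ![2, 3, 0, 1, 6, 7, 4, 5],
    ![3, 0, 1, 2, 7, 4, 5, 6],
    ![4, 7, 6, 5, 0, 3, 2, 1],
    ![5, 4, 7, 6, 1, 0, 3, 2],
    ![6, 5, 4, 7, 2, 1, 0, 3],
    ![7, 6, 5, 4, 3, 2, 1, 0]]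

def M8 : Fin 8 → Fin 8 → Fin 8 :=
  ![![0, 2, 4, 6, 3, 1, 7, 5],
    ![1, 3, 5, 7, 0, 2, 4, 6],
    ![2, 0, 6, 4, 1, 3, 5, 7],
    ![3, 1, 7, 5, 2, 0, 6, 4],
    ![4, 6, 0, 2, 5, 7, 1, 3],
    ![5, 7, 1, 3, 6, 4, 2, 0],
    ![6, 4, 2, 0, 7, 5, 3, 1],
    ![7, 5, 3, 1, 4, 6, 0, 2]]

def E8 : Fin 8 → Fin 8 → ℤ :=
  ![![-1, -1, -1, -1, -1, 1, -1, -1],
    ![1, 1, 1, 1, -1, 1, 1, 1],
    ![-1, -1, -1, -1, -1, -1, -1, 1],
    ![-1, -1, -1, -1, -1, -1, 1, -1],
    ![-1, -1, -1, 1, -1, -1, -1, -1],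
    ![-1, 1, 1, 1, 1, 1, 1, 1],
    ![-1, 1, -1, -1, -1, -1, -1, -1],
    ![-1, -1, 1, -1, -1, -1, -1, -1]]

def G8 : Fin 8 → Fin 8 → ℤ :=
  ![![-1, 1, 1, 1, -1, -1, -1, 1],
    ![-1, 1, 1, 1, 1, 1, -1, 1],
    ![1, -1, -1, -1, 1, -1, 1, 1],
    ![1, -1, -1, -1, 1, -1, -1, -1],
    ![1, -1, -1, 1, 1, -1, 1, -1],
    ![-1, -1, -1, -1, 1, -1, 1, -1],
    ![-1, -1, 1, 1, -1, 1, -1, 1],
    ![-1, 1, -1, 1, -1, 1, -1, 1]]

def D8 : Fin 8 → Fin 8 → ℤ :=
  ![![-1, 1, 1, 1, 0, 1, -1, -1],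
    ![1, 1, 0, -1, 0, 0, 0, 1],
    ![1, 0, 1, -1, 0, -1, 0, -1],
    ![-1, 0, -1, 1, 0, -1, 1, 0],
    ![-1, -1, -1, 1, 0, 0, -1, 0],
    ![-1, 1, -1, 0, 0, 0, 1, 0],
    ![-1, -1, 1, -1, -1, 0, 1, -1],
    ![0, 1, -1, 0, 0, 1, 0, -1]]

def E8' : Fin 8 → Fin 8 → ℤ :=
  ![![1, 1, 1, -1, 1, -1, 1, -1],
    ![1, -1, 1, -1, 1, 1, 1, -1],
    ![1, 1, -1, 1, -1, 1, -1, 1],
    ![1, -1, 1, -1, -1, -1, 1, -1],
    ![1, -1, 1, 1, 1, -1, 1, -1],
    ![-1, 1, -1, 1, -1, 1, 1, 1],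
    ![-1, 1, 1, 1, -1, 1, -1, 1],
    ![-1, 1, -1, 1, -1, 1, -1, -1]]

def G8' : Fin 8 → Fin 8 → ℤ :=
  ![![-1, 1, 1, -1, -1, -1, -1, -1],
    ![1, 1, -1, 1, 1, -1, 1, 1],
    ![1, -1, 1, -1, -1, -1, -1, -1],
    ![1, 1, -1, 1, -1, 1, 1, 1],
    ![1, 1, -1, -1, 1, 1, 1, 1],
    ![1, 1, -1, 1, 1, 1, -1, 1],
    ![1, 1, 1, 1, 1, 1, 1, 1],
    ![1, 1, -1, 1, 1, 1, 1, -1]]

def D8' : Fin 8 → Fin 8 → ℤ :=
  ![![-1, 1, -1, 0, 1, 1, -1, -1],
    ![1, 1, 1, 1, -1, -1, 1, 1],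
    ![1, 0, 1, -1, 0, 1, -1, 1],
    ![1, -1, 1, -1, 1, -1, -1, 1],
    ![1, -1, 0, 1, 0, -1, 0, 0],
    ![-1, -1, -1, 0, -1, 0, 0, 0],
    ![1, 1, -1, 0, -1, -1, 0, -1],
    ![-1, 1, 0, 1, -1, -1, 0, 1]]

def L4 : Fin 4 → Fin 4 → Fin 4 :=
  ![![0, 1, 2, 3],
    ![1, 0, 3, 2],
    ![2, 3, 0, 1],
    ![3, 2, 1, 0]]

def M4 : Fin 4 → Fin 4 → Fin 4 :=
  ![![0, 2, 3, 1],
    ![1, 3, 2, 0],
    ![2, 0, 1, 3],
    ![3, 1, 0, 2]]

def E4 : Fin 4 → Fin 4 → ℤ :=
  ![![1, 1, 1, 1],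
    ![1, 1, 1, 1],
    ![1, 1, 1, 1],
    ![1, 1, 1, 1]]

def G4 : Fin 4 → Fin 4 → ℤ :=
  ![![1, 1, 1, 1],
    ![1, 1, 1, 1],
    ![-1, -1, -1, -1],
    ![-1, -1, -1, -1]]

def G4' : Fin 4 → Fin 4 → ℤ :=
  ![![-1, -1, -1, -1],
    ![-1, -1, -1, -1],
    ![1, 1, 1, 1],
    ![1, 1, 1, 1]]

def D4 : Fin 4 → Fin 4 → ℤ :=
  ![![0, 0, 0, 0],
    ![0, 1, 0, 1],
    ![0, 0, 0, 0],
    ![0, 1, 0, 1]]

def D4' : Fin 4 → Fin 4 → ℤ :=
  ![![0, 0, 0, 0],
    ![0, 0, 0, 0],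
    ![0, 0, 1, 1],
    ![0, 0, 1, 1]]

def K4 : Fin 4 → Fin 4 → ℤ :=
  ![![0, 0, 1, 1],
    ![0, 0, 1, 1],
    ![0, 1, 1, 1],
    ![0, 0, 1, 0]]

def K4' : Fin 4 → Fin 4 → ℤ :=
  ![![0, 1, 1, 0],
    ![1, 1, 0, 0],
    ![1, 1, 0, 0],
    ![0, 1, 1, 0]]

theorem latinL8 : IsLatin L8 := by
  unfold IsLatin; decide +kernel
theorem latinM8 : IsLatin M8 := by
  unfold IsLatin; decide +kernel
theorem orth8 : Orth L8 M8 := by
  unfold Orth; decide +kernel
theorem latinL4 : IsLatin L4 := by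
  unfold IsLatin; decide +kernel
theorem latinM4 : IsLatin M4 := by
  unfold IsLatin; decide +kernel
theorem orth4 : Orth L4 M4 := by
  unfold Orth; decide +kernel

theorem good_three : Good 3 := by
  have hm : Odd 3 := by decide
  refine ⟨Fin 8 × ZMod 3, inferInstance, inferInstance, inferInstance, ext L8 E8 G8 D8 3,
    ext M8 E8' G8' D8' 3, isLatin_ext latinL8 (by decide +kernel) (by decide +kernel) 3,
    isLatin_ext latinM8 (by decide +kernel) (by decide +kernel) 3,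
    orth_ext orth8 hm (by decide +kernel), fun r c => ?_, fun r c => ?_⟩
  · exact F_ext hm le_rfl (by decide +kernel) (by decide +kernel) (by decide +kernel) 3 0
      (by decide +kernel) (by decide +kernel) r c
  · exact F_ext hm le_rfl (by decide +kernel) (by decide +kernel) (by decide +kernel) 3 0
      (by decide +kernel) (by decide +kernel) r c

theorem good_two : Good 2 := by
  have hm : Odd 3 := by decide
  refine ⟨Fin 4 × ZMod 3, inferInstance, inferInstance, inferInstance, ext L4 E4 G4 K4 3,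
    ext M4 E4 G4' K4' 3, isLatin_ext latinL4 (by decide +kernel) (by decide +kernel) 3,
    isLatin_ext latinM4 (by decide +kernel) (by decide +kernel) 3,
    orth_ext orth4 hm (by decide +kernel), fun r c => ?_, fun r c => ?_⟩
  · exact F_ext hm le_rfl (by decide +kernel) (by decide +kernel) (by decide +kernel) 2 0
      (by decide +kernel) (by decide +kernel) r c
  · exact F_ext hm le_rfl (by decide +kernel) (by decide +kernel) (by decide +kernel) 2 0
      (by decide +kernel) (by decide +kernel) r c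

theorem good_odd {m : ℕ} (hm : Odd m) (hm3 : 3 ≤ m) : Good (m + 2) := by
  have : NeZero m := ⟨by omega⟩
  refine ⟨Fin 4 × ZMod m, inferInstance, inferInstance, inferInstance, ext L4 E4 G4 D4 m,
    ext M4 E4 G4' D4' m, isLatin_ext latinL4 (by decide +kernel) (by decide +kernel) m,
    isLatin_ext latinM4 (by decide +kernel) (by decide +kernel) m,
    orth_ext orth4 hm (by decide +kernel), fun r c => ?_, fun r c => ?_⟩
  · rw [F_ext hm hm3 (by decide +kernel) (by decide +kernel) (by decide +kernel) 2 1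
      (by decide +kernel) (by decide +kernel) r c]
    ring
  · rw [F_ext hm hm3 (by decide +kernel) (by decide +kernel) (by decide +kernel) 2 1
      (by decide +kernel) (by decide +kernel) r c]
    ring

theorem good_all (k : ℕ) (hk : 1 ≤ k) : Good k := by
  induction k using Nat.strong_induction_on with
  | _ k ih =>
    rcases Nat.even_or_odd k with ⟨a, ha⟩ | hodd
    · have h1 : 1 ≤ a := by omega
      have := good_mul good_two (ih a (by omega) h1)
      rwa [show 2 * a = k by omega] at this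
    · by_cases h1 : k = 1
      · rw [h1]; exact good_one
      · by_cases h3 : k = 3
        · rw [h3]; exact good_three
        · obtain ⟨a, ha⟩ := hodd
          have := good_odd (m := k - 2) ⟨a - 1, by omega⟩ (by omega)
          rwa [show k - 2 + 2 = k by omega] at this

/-! ### The statement -/

/-- Every symbol occurs exactly once in each row and exactly once in each column. -/
def IsLatinSquare {n : ℕ} (L : Fin n → Fin n → Fin n) : Prop :=
  (∀ r k, ∃! c, L r c = k) ∧ (∀ c k, ∃! r, L r c = k)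

/-- The ordered pairs `(L i j, M i j)` are pairwise distinct. -/
def Orthogonal {n : ℕ} (L M : Fin n → Fin n → Fin n) : Prop :=
  ∀ i j i' j', L i j = L i' j' → M i j = M i' j' → i = i' ∧ j = j'

/-- `S` is the set of cells of an intercalate of `L`. -/
def IsIntercalate {n : ℕ} (L : Fin n → Fin n → Fin n) (S : Finset (Fin n × Fin n)) : Prop :=
  ∃ r r' c c', r ≠ r' ∧ c ≠ c' ∧ L r c = L r' c' ∧ L r c' = L r' c ∧
    S = {(r, c), (r, c'), (r', c), (r', c')}

/-- Each cell belongs to exactly `h` intercalates. -/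
def Homogeneous {n : ℕ} (h : ℕ) (L : Fin n → Fin n → Fin n) : Prop :=
  ∀ r c, {S : Finset (Fin n × Fin n) | IsIntercalate L S ∧ (r, c) ∈ S}.ncard = h

theorem homogeneous_of_F {n : ℕ} {L : Fin n → Fin n → Fin n} (hL : IsLatin L) {h : ℕ}
    (hF : ∀ r c, F L r c = h + 1) : Homogeneous h L := by
  intro r c
  have hinj1 : ∀ a b b', L a b = L a b' → b = b' := fun a b b' h => (hL.1 a).1 h
  have hinj2 : ∀ a a' b, L a b = L a' b → a = a' := fun a a' b h => (hL.2 b).1 h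
  let U : Finset (Fin n × Fin n) :=
    Finset.univ.filter fun p : Fin n × Fin n => L r c = L p.1 p.2 ∧ L r p.2 = L p.1 c
  have hU : U.card = h + 1 := hF r c
  have hmem : (r, c) ∈ U := by simp [U]
  let V := U.erase (r, c)
  have hV : V.card = h := by rw [Finset.card_erase_of_mem hmem, hU]; rfl
  let f : Fin n × Fin n → Finset (Fin n × Fin n) :=
    fun p => {(r, c), (r, p.2), (p.1, c), (p.1, p.2)}
  have hVp : ∀ p ∈ V, p.1 ≠ r ∧ p.2 ≠ c ∧ L r c = L p.1 p.2 ∧ L r p.2 = L p.1 c := by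
    intro p hp
    obtain ⟨hne, hpU⟩ := Finset.mem_erase.1 hp
    obtain ⟨_, h1, h2⟩ := Finset.mem_filter.1 hpU
    refine ⟨?_, ?_, h1, h2⟩
    · intro h3
      apply hne
      rw [h3] at h1
      have := hinj1 _ _ _ h1
      exact Prod.ext h3 this.symm
    · intro h3
      apply hne
      rw [h3] at h1
      have := hinj2 _ _ _ h1
      exact Prod.ext this.symm h3
  have hset : {S : Finset (Fin n × Fin n) | IsIntercalate L S ∧ (r, c) ∈ S} = f '' (V : Set _) := by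
    ext S
    constructor
    · rintro ⟨⟨a, a', b, b', hab, hbb, h1, h2, rfl⟩, hS⟩
      have key : ∀ p : Fin n × Fin n, p.1 ≠ r → L r c = L p.1 p.2 → L r p.2 = L p.1 c →
          p ∈ V := by
        intro p hp h3 h4
        refine Finset.mem_erase.2 ⟨fun h5 => hp (by rw [h5]), ?_⟩
        exact Finset.mem_filter.2 ⟨Finset.mem_univ _, h3, h4⟩
      simp only [Finset.mem_insert, Finset.mem_singleton, Prod.mk.injEq] at hS
      rcases hS with ⟨rfl, rfl⟩ | ⟨rfl, rfl⟩ | ⟨rfl, rfl⟩ | ⟨rfl, rfl⟩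
      · refine ⟨(a', b'), key _ (Ne.symm hab) h1 h2, rfl⟩
      · refine ⟨(a', b), key _ (Ne.symm hab) h2 h1, ?_⟩
        ext ⟨x, y⟩
        simp only [f, Finset.mem_insert, Finset.mem_singleton, Prod.mk.injEq]
        tauto
      · refine ⟨(a, b'), key _ hab h2.symm h1.symm, ?_⟩
        ext ⟨x, y⟩
        simp only [f, Finset.mem_insert, Finset.mem_singleton, Prod.mk.injEq]
        tauto
      · refine ⟨(a, b), key _ hab h1.symm h2.symm, ?_⟩
        ext ⟨x, y⟩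
        simp only [f, Finset.mem_insert, Finset.mem_singleton, Prod.mk.injEq]
        tauto
    · rintro ⟨p, hp, rfl⟩
      obtain ⟨h1, h2, h3, h4⟩ := hVp p hp
      exact ⟨⟨r, p.1, c, p.2, Ne.symm h1, Ne.symm h2, h3, h4, rfl⟩, by simp [f]⟩
  rw [hset, Set.InjOn.ncard_image, Set.ncard_coe_finset, hV]
  intro p hp q hq hpq
  obtain ⟨h1, h2, _, _⟩ := hVp p hp
  have h3 : (p.1, p.2) ∈ f q := by rw [← hpq]; simp [f]
  simp only [f, Finset.mem_insert, Finset.mem_singleton, Prod.mk.injEq] at h3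
  rcases h3 with h | h | h | h
  · exact absurd h.1 h1
  · exact absurd h.1 h1
  · exact absurd h.2 h2
  · exact Prod.ext h.1 h.2

/-- transport to `Fin n` -/
theorem F_transport {I : Type} [Fintype I] [DecidableEq I] {n : ℕ} (e : I ≃ Fin n)
    (L : I → I → I) (r c : Fin n) :
    F (fun a b => e (L (e.symm a) (e.symm b))) r c = F L (e.symm r) (e.symm c) := by
  unfold F
  refine Finset.card_bij' (fun p _ => (e.symm p.1, e.symm p.2)) (fun p _ => (e p.1, e p.2))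
    ?_ ?_ ?_ ?_
  · intro p hp
    simpa using hp
  · intro p hp
    simpa using hp
  · intro p _; simp
  · intro p _; simp

/-- Every nonnegative integer `h` is in `H`. -/
theorem result : ∀ h : ℕ, ∃ n : ℕ, 1 ≤ n ∧ ∃ L M : Fin n → Fin n → Fin n,
    IsLatinSquare L ∧ IsLatinSquare M ∧ Orthogonal L M ∧ Homogeneous h L ∧ Homogeneous h M := by
  intro h
  obtain ⟨I, _, _, _, L, M, hL, hM, hO, hFL, hFM⟩ := good_all (h + 1) (by omega)
  let e := Fintype.equivFin I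
  have hlat : ∀ K : I → I → I, IsLatin K → IsLatin fun a b => e (K (e.symm a) (e.symm b)) := by
    intro K hK
    constructor
    · intro r
      exact e.bijective.comp ((hK.1 _).comp e.symm.bijective)
    · intro c
      exact e.bijective.comp ((hK.2 (e.symm c)).comp e.symm.bijective)
  have hsq : ∀ {n : ℕ} (K : Fin n → Fin n → Fin n), IsLatin K → IsLatinSquare K := by
    intro n K hK
    exact ⟨fun r k => (hK.1 r).existsUnique k, fun c k => (hK.2 c).existsUnique k⟩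
  refine ⟨Fintype.card I, Fintype.card_pos, fun a b => e (L (e.symm a) (e.symm b)),
    fun a b => e (M (e.symm a) (e.symm b)), hsq _ (hlat L hL), hsq _ (hlat M hM), ?_,
    homogeneous_of_F (hlat L hL) fun r c => ?_, homogeneous_of_F (hlat M hM) fun r c => ?_⟩
  · intro i j i' j' h1 h2
    have h1' := e.injective h1
    have h2' := e.injective h2
    have := @hO (e.symm i, e.symm j) (e.symm i', e.symm j') (by simp [h1', h2'])
    simp only [Prod.mk.injEq, EmbeddingLike.apply_eq_iff_eq] at this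
    exact this
  · rw [F_transport, hFL]
  · rw [F_transport, hFM]

end Pool.Agent.Results.MP_510a26_co.AllHomogeneous
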